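import Pool.Agent.helper91.RB.Spec3

/-!
# Row rb:ORD of `Pool.Agent.helper91.RB.Spec3`
-/

set_option autoImplicit false

namespace Pool.Agent.RB

open NumberField IsDedekindDomain Module
open scoped nonZeroDivisors Real Classical

theorem ORD_int_le {R S : Type} [CommRing R] [IsDedekindDomain R] [CommRing S] [IsDedekindDomain S]
    (e : R ≃+* S) (P : HeightOneSpectrum R) (r : R) (hr : r ≠ 0) :
    (HeightOneSpectrum.equivOfRingEquiv e P).intValuation (e r) ≤ P.intValuation r := by
  rw [P.intValuation_if_neg hr, HeightOneSpectrum.intValuation_le_pow_iff_mem]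
  set m := (Associates.mk P.asIdeal).count (Associates.mk (Ideal.span {r} : Ideal R)).factors with hm
  have h1 : r ∈ P.asIdeal ^ m := by
    rw [← HeightOneSpectrum.intValuation_le_pow_iff_mem, P.intValuation_if_neg hr]
  have h2 : (HeightOneSpectrum.equivOfRingEquiv e P).asIdeal = P.asIdeal.map (e : R →+* S) := by
    show P.asIdeal.comap (e.symm : S →+* R) = _
    exact (Ideal.map_comap_of_equiv e).symm
  rw [h2, ← Ideal.map_pow]
  exact Ideal.mem_map_of_mem (e : R →+* S) h1

theorem ORD_symm {R S : Type} [CommRing R] [IsDedekindDomain R] [CommRing S] [IsDedekindDomain S]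
    (e : R ≃+* S) (P : HeightOneSpectrum R) :
    HeightOneSpectrum.equivOfRingEquiv e.symm (HeightOneSpectrum.equivOfRingEquiv e P) = P := by
  apply HeightOneSpectrum.ext
  ext x
  show e.symm (e x) ∈ P.asIdeal ↔ x ∈ P.asIdeal
  rw [RingEquiv.symm_apply_apply]

theorem ORD_int {R S : Type} [CommRing R] [IsDedekindDomain R] [CommRing S] [IsDedekindDomain S]
    (e : R ≃+* S) (P : HeightOneSpectrum R) (r : R) :
    (HeightOneSpectrum.equivOfRingEquiv e P).intValuation (e r) = P.intValuation r := by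
  by_cases hr : r = 0
  · rw [hr, map_zero, map_zero, map_zero]
  refine le_antisymm (ORD_int_le e P r hr) ?_
  have h1 := ORD_int_le e.symm (HeightOneSpectrum.equivOfRingEquiv e P) (e r)
    (fun h => hr (by simpa using h))
  rwa [ORD_symm, RingEquiv.symm_apply_apply] at h1

theorem ORD_act_val {K : Type} [Field K] [NumberField K] (σ : K ≃+* K) (P : HOS K) (x : K) :
    (act σ P).valuation K (σ x) = P.valuation K x := by
  obtain ⟨a, b, hb, rfl⟩ := IsFractionRing.div_surjective (A := 𝓞 K) x
  have h1 : ∀ r : 𝓞 K, σ (algebraMap (𝓞 K) K r) =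
      algebraMap (𝓞 K) K (RingOfIntegers.mapRingEquiv σ r) := fun r => rfl
  rw [map_div₀, map_div₀, map_div₀, h1, h1, HeightOneSpectrum.valuation_of_algebraMap,
    HeightOneSpectrum.valuation_of_algebraMap, HeightOneSpectrum.valuation_of_algebraMap,
    HeightOneSpectrum.valuation_of_algebraMap]
  unfold act
  rw [ORD_int, ORD_int]

theorem ORD_zero_iff {K : Type} [Field K] [NumberField K] (x : K) (P : HOS K) (hx : x ≠ 0) :
    ord P x = 0 ↔ P.valuation K x = 1 := by
  have h1 : P.valuation K x ≠ 0 := (Valuation.ne_zero_iff _).mpr hx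
  unfold ord
  rw [neg_eq_zero]
  constructor
  · intro h
    have h2 := WithZero.exp_log h1
    rw [h, WithZero.exp_zero] at h2
    exact h2.symm
  · intro h
    rw [h, WithZero.log_one]

theorem ORD_le_iff {K : Type} [Field K] [NumberField K] (x : K) (P : HOS K) (hx : x ≠ 0) :
    0 ≤ ord P x ↔ P.valuation K x ≤ 1 := by
  have h1 : P.valuation K x ≠ 0 := (Valuation.ne_zero_iff _).mpr hx
  unfold ord
  rw [neg_nonneg, WithZero.log_le_iff_le_exp h1, WithZero.exp_zero]

theorem ORD : ORD_stmt := by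
  intro K _ _
  refine ⟨?_, fun x P hx => ORD_le_iff x P hx, fun x P hx => ORD_zero_iff x P hx, ?_, ?_, ?_, ?_, ?_, ?_⟩
  · intro x hx
    refine ((HeightOneSpectrum.Support.finite (𝓞 K) x).union
      (HeightOneSpectrum.Support.finite (𝓞 K) x⁻¹)).subset ?_
    intro P hP
    have h0 : P.valuation K x ≠ 0 := (Valuation.ne_zero_iff _).mpr hx
    have h1 : P.valuation K x ≠ 1 := fun h => hP ((ORD_zero_iff x P hx).2 h)
    rcases lt_or_gt_of_ne h1 with h2 | h2
    · right
      show 1 < P.valuation K x⁻¹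
      rw [map_inv₀]
      exact (one_lt_inv₀ (zero_lt_iff.2 h0)).2 h2
    · left
      exact h2
  · intro x hx h
    have h1 : ∀ P : HOS K, P.valuation K x = 1 := fun P => (ORD_zero_iff x P hx).1 (h P)
    obtain ⟨a, ha⟩ := HeightOneSpectrum.mem_integers_of_valuation_le_one K x (fun P => (h1 P).le)
    obtain ⟨b, hb⟩ := HeightOneSpectrum.mem_integers_of_valuation_le_one K x⁻¹
      (fun P => by rw [map_inv₀, h1 P, inv_one])
    have hab : a * b = 1 := by
      apply RingOfIntegers.coe_injective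
      show algebraMap (𝓞 K) K (a * b) = algebraMap (𝓞 K) K 1
      rw [map_mul, map_one, ha, hb, mul_inv_cancel₀ hx]
    exact ⟨⟨a, b, hab, by rw [mul_comm, hab]⟩, ha⟩
  · intro u P
    have hu : ((u : 𝓞 K) : K) ≠ 0 := by
      intro h
      have : (u : 𝓞 K) = 0 := by
        apply RingOfIntegers.coe_injective
        exact h
      exact u.ne_zero this
    rw [ORD_zero_iff _ P hu]
    have h1 : P.valuation K (algebraMap (𝓞 K) K (u : 𝓞 K)) ≤ 1 := P.valuation_le_one _
    have h2 : P.valuation K (algebraMap (𝓞 K) K ((u⁻¹ : (𝓞 K)ˣ) : 𝓞 K)) ≤ 1 := P.valuation_le_one _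
    have h3 : P.valuation K (algebraMap (𝓞 K) K (u : 𝓞 K)) *
        P.valuation K (algebraMap (𝓞 K) K ((u⁻¹ : (𝓞 K)ˣ) : 𝓞 K)) = 1 := by
      rw [← map_mul, ← map_mul, Units.mul_inv, map_one, map_one]
    refine le_antisymm h1 ?_
    rw [← h3]
    exact mul_le_of_le_one_right' h2
  · intro σ P x
    have h1 := ORD_act_val σ P x
    exact ⟨h1, by unfold ord; rw [h1]⟩
  · intro P
    apply HeightOneSpectrum.ext
    ext x
    exact Iff.rfl
  · intro σ τ P
    apply HeightOneSpectrum.ext
    ext x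
    exact Iff.rfl
  · intro k _ _ _ σ P hσ
    apply HeightOneSpectrum.ext
    ext x
    show (RingOfIntegers.mapRingEquiv σ).symm (algebraMap (𝓞 k) (𝓞 K) x) ∈ P.asIdeal ↔
      algebraMap (𝓞 k) (𝓞 K) x ∈ P.asIdeal
    have h1 : (RingOfIntegers.mapRingEquiv σ).symm (algebraMap (𝓞 k) (𝓞 K) x) =
        algebraMap (𝓞 k) (𝓞 K) x := by
      rw [RingEquiv.symm_apply_eq]
      apply RingOfIntegers.coe_injective
      exact (hσ x).symm
    rw [h1]

end Pool.Agent.RB
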